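import Pool.Agent.P.MP_7a71fe_lc.AC.Main

/-!
MP_7a71fe_lc: if P differs from UP, two almost complete sets for exponential time are
equivalent under one-to-one length-increasing reductions but not isomorphic.
-/

open Pool.Agent.P.MP_7a71fe_lc.AC

namespace Pool.Agent.Results.MP_7a71fe_lc.AlmostComplete

theorem result (h : ∃ L, InUP L ∧ ¬ InP L) :
    ∃ A B D, OneLi A B ∧ OneLi B A ∧ ¬ Iso A B ∧ Mart D ∧
      ∀ C ∈ [A, B], InE C ∧ ∀ L, InEXP L → ((¬ ∃ f, Red L C f) → Succ D L) ∧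
        ∃ f g, InFP f ∧ InFP g ∧ ∀ x, x ∈ L ↔ ¬ (f x ∈ C ↔ g x ∈ C) := main h

end Pool.Agent.Results.MP_7a71fe_lc.AlmostComplete
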