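import Pool.Agent.P.MP_7a71fe_lc.Main

/-!
MP_7a71fe_lc: an oracle relative to which unambiguous polynomial time equals exponential time
and the complete degree of exponential time collapses.
-/

open Pool.Agent.P.MP_7a71fe_lc

namespace Pool.Agent.Results.MP_7a71fe_lc.OracleCollapse

theorem result : ∃ A : Set (List Bool),
    (∀ L, InEXP A L ↔ InUP A L ∧ InUP A Lᶜ) ∧ (∀ L, InNP A L ↔ InEXP A L) ∧
    (∃ L, InEXP A L ∧ ¬ InP A L) ∧ (∃ C, Complete A C) ∧
    (∀ B C, Complete A B → Complete A C → Iso A B C) ∧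
    ∀ B C f g, Paddable A B → Red A B C f → OneLi f → Red A C B g → Iso A B C := main

end Pool.Agent.Results.MP_7a71fe_lc.OracleCollapse
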