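import Pool.Agent.P.MP_7a71fe_lc.LD.MainC

/-!
MP_7a71fe_lc: the sets complete for exponential time under polynomial-time reductions whose output
bits are polynomials of bounded degree over the field with two elements in the values of uniform
constant-depth formulas are polynomial-time isomorphic.
-/

open Pool.Agent.P.MP_7a71fe_lc.AC Pool.Agent.P.MP_7a71fe_lc.LD

namespace Pool.Agent.Results.MP_7a71fe_lc.ParityAC0

theorem result : (∃ A, PAComplete A) ∧ ∀ A B, PAComplete A → PAComplete B → Iso A B := mainC

end Pool.Agent.Results.MP_7a71fe_lc.ParityAC0
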