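import Pool.Agent.P.MP_7a71fe_lc.TD.Main

/-!
MP_7a71fe_lc: if composite residuosity is hard, then relative to some tally oracle there is a
scrambling function and the complete degree of exponential time does not collapse.
-/

open Pool.Agent.P.MP_7a71fe_lc Pool.Agent.P.MP_7a71fe_lc.TD

namespace Pool.Agent.Results.MP_7a71fe_lc.TallyDCR

theorem result (h : ∀ s, ¬ Easy s) : ∃ T, Tally T ∧ ∃ f, FP T f ∧ OneLi f ∧
    (∀ g d, FP T g → FP T d → (∀ z, d (g z) = z) → ∃ z, g z ∉ Set.range f) ∧
    ∃ A, Complete T A ∧ Complete T (f '' A) ∧ ¬ Iso T A (f '' A) := main h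

end Pool.Agent.Results.MP_7a71fe_lc.TallyDCR
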